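import Pool.Agent.R877.RN.Stm2

/-!
# The derived algebra of a solvable Lie algebra lies in the nilradical
-/

set_option autoImplicit false

namespace R877.RN

open LieModule LieAlgebra
open scoped TensorProduct

theorem der_aux {k L : Type} [Field k] [CharZero k] [IsAlgClosed k] [LieRing L]
    [LieAlgebra k L] [LieAlgebra.IsSolvable L] (x : L) (hx : x ∈ derivedSeries k L 1) :
    ∀ (n : ℕ) (V : Type) [AddCommGroup V] [Module k V] [LieRingModule L V] [LieModule k L V]
      [FiniteDimensional k V], Module.finrank k V ≤ n →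
      _root_.IsNilpotent (toEnd k L V x) := by
  intro n
  induction n with
  | zero =>
    intro V _ _ _ _ _ hV
    have hs : Subsingleton V := Module.finrank_zero_iff.1 (Nat.le_zero.1 hV)
    exact ⟨1, LinearMap.ext fun v => Subsingleton.elim _ _⟩
  | succ n ih =>
    intro V _ _ _ _ _ hV
    by_cases hs : Subsingleton V
    · exact ⟨1, LinearMap.ext fun v => Subsingleton.elim _ _⟩
    · rw [not_subsingleton_iff_nontrivial] at hs
      obtain ⟨χ, hχ⟩ := exists_nontrivial_weightSpace_of_isSolvable k L V
      obtain ⟨⟨v, hv⟩, hv0⟩ := exists_ne (0 : weightSpace V χ)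
      have hv0' : v ≠ 0 := fun h => hv0 (Subtype.ext h)
      rw [mem_weightSpace] at hv
      have hχx : χ x = 0 := by
        clear ih
        rw [derivedSeries_def, derivedSeriesOfIdeal_succ, derivedSeriesOfIdeal_zero,
          ← LieSubmodule.mem_toSubmodule, LieSubmodule.lieIdeal_oper_eq_linear_span'] at hx
        induction hx using Submodule.span_induction with
        | mem y hy =>
          obtain ⟨a, -, b, -, rfl⟩ := hy
          have h1 : χ ⁅a, b⁆ • v = 0 := by
            rw [← hv, lie_lie, hv b, hv a, lie_smul, lie_smul, hv a, hv b, smul_smul, smul_smul,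
              mul_comm, sub_self]
          exact (smul_eq_zero.1 h1).resolve_right hv0'
        | zero => exact map_zero χ
        | add a b _ _ ha hb => rw [map_add, ha, hb, add_zero]
        | smul c a _ ha => rw [map_smul, ha, smul_zero]
      have hlt : Module.finrank k (V ⧸ weightSpace V χ) ≤ n := by
        have h1 := Submodule.finrank_quotient_add_finrank (weightSpace V χ).toSubmodule
        have h2 : 0 < Module.finrank k (weightSpace V χ) := Module.finrank_pos
        have h3 : Module.finrank k (V ⧸ weightSpace V χ) =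
          Module.finrank k (V ⧸ (weightSpace V χ).toSubmodule) := rfl
        have h4 : Module.finrank k (weightSpace V χ) =
          Module.finrank k (weightSpace V χ).toSubmodule := rfl
        omega
      obtain ⟨m, hm⟩ := ih (V ⧸ weightSpace V χ) hlt
      refine ⟨m + 1, ?_⟩
      have hmk : ∀ (j : ℕ) (w : V), LieSubmodule.Quotient.mk (N := weightSpace V χ)
          (((toEnd k L V x) ^ j) w) = ((toEnd k L (V ⧸ weightSpace V χ) x) ^ j)
            (LieSubmodule.Quotient.mk w) := by
        intro j w
        induction j with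
        | zero => rfl
        | succ j ihj =>
          rw [pow_succ', pow_succ', Module.End.mul_apply, Module.End.mul_apply, ← ihj]
          rfl
      ext w
      have h5 : ((toEnd k L V x) ^ m) w ∈ weightSpace V χ := by
        have h6 := hmk m w
        rw [hm] at h6
        exact (LieSubmodule.Quotient.mk_eq_zero (weightSpace V χ)).1 h6
      rw [mem_weightSpace] at h5
      rw [pow_succ', Module.End.mul_apply, toEnd_apply_apply, h5, hχx, zero_smul]
      rfl

theorem der_nilp {g : Type} [LieRing g] [LieAlgebra ℝ g] [FiniteDimensional ℝ g]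
    [LieAlgebra.IsSolvable g] (x : g) (hx : x ∈ derivedSeries ℝ g 1) :
    _root_.IsNilpotent (toEnd ℝ g g x) := by
  have h1 : (1 : ℂ) ⊗ₜ[ℝ] x ∈ derivedSeries ℂ (ℂ ⊗[ℝ] g) 1 := by
    rw [derivedSeries_baseChange]
    exact Submodule.tmul_mem_baseChange_of_mem 1 hx
  have h2 := der_aux ((1 : ℂ) ⊗ₜ[ℝ] x) h1 _ (ℂ ⊗[ℝ] g) le_rfl
  have hbc_inj : Function.Injective (Module.End.baseChangeHom ℝ ℂ g) :=
    LinearMap.baseChangeHom_injective ℝ g ℂ
  have aux : (toEnd ℝ g g x).baseChangeHom ℝ ℂ g = (toEnd ℝ g g x).baseChange ℂ := rfl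
  rw [← IsNilpotent.map_iff hbc_inj, aux, ← toEnd_baseChange]
  exact h2

theorem p_DER : P_DER := by
  intro g _ _ _ _ n hn x y
  have hmem : ⁅x, y⁆ ∈ derivedSeries ℝ g 1 := by
    rw [derivedSeries_def, derivedSeriesOfIdeal_succ, derivedSeriesOfIdeal_zero]
    exact LieSubmodule.lie_mem_lie (LieSubmodule.mem_top x) (LieSubmodule.mem_top y)
  refine hn.2 (derivedSeries ℝ g 1) ?_ hmem
  rw [LieAlgebra.isNilpotent_iff_forall (R := ℝ)]
  rintro ⟨z, hz⟩
  apply LieSubalgebra.isNilpotent_ad_of_isNilpotent_ad
    ((derivedSeries ℝ g 1 : LieIdeal ℝ g) : LieSubalgebra ℝ g) (x := ⟨z, hz⟩)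
  exact der_nilp z hz

end R877.RN
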